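import Pool.Agent.Helper34.PU.Goals

set_option autoImplicit false

open Finset Function
open scoped Classical

namespace Pool.Agent.Helper10.PU

open Pool.Agent.Helper34.PU

lemma avg_nonneg' {α : Type} (A : Finset α) (f : α → ℝ) (h : ∀ i ∈ A, 0 ≤ f i) : 0 ≤ avg A f := by
  unfold avg
  exact div_nonneg (Finset.sum_nonneg h) (Nat.cast_nonneg _)

lemma box4_nonneg' {α : Type} (A B : Finset α) (F : α → α → ℝ) : 0 ≤ box4 A B F := 
  avg_nonneg' _ _ fun _ _ => avg_nonneg' _ _ fun _ _ => sq_nonneg _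

/-- the average box norm -/
noncomputable def boxavg {T D N Q r L k : ℕ} (x : Fin N → Pt T D)
    (f : Fin Q × Fin N → Fin Q × Fin N → Fin r) (lab : Fin Q → Finset (Fin T) → Fin N → Fin L)
    (κ : Fin k → Fin T) (U J J' : Finset (Fin k)) (p q : Fin Q) (c : Fin r) : ℝ :=
  avg univ (fun φ : Pt T D => box4 (cell x ((U ∪ J).image κ) φ) (cell x ((U ∪ J').image κ) φ)
        (Ferr x f lab (U.image κ) φ p q c))

lemma boxavg_nonneg {T D N Q r L k : ℕ} (x : Fin N → Pt T D)
    (f : Fin Q × Fin N → Fin Q × Fin N → Fin r) (lab : Fin Q → Finset (Fin T) → Fin N → Fin L)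
    (κ : Fin k → Fin T) (U J J' : Finset (Fin k)) (p q : Fin Q) (c : Fin r) :
    0 ≤ boxavg x f lab κ U J J' p q c :=
  avg_nonneg' _ _ fun _ _ => box4_nonneg' _ _ _

/-- failure of `XGood` -/
def bad {T D N Q L k : ℕ} (β s : ℕ) (γ : ℝ) (x : Fin N → Pt T D)
    (lab : Fin Q → Finset (Fin T) → Fin N → Fin L) (κ : Fin k → Fin T)
    (q : Fin Q) (I : Finset (Fin k)) (ϑ : Finset (Fin k) → Fin L) : Prop :=
  ∃ F : Pt T D → ℝ, PF β ∅ (univ.image κ) F ∧
      γ < |avg univ (fun i => (ind s (fun q U => lab q (U.image κ)) q I ϑ i -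
        avg (cell x (I.image κ) (x i)) (ind s (fun q U => lab q (U.image κ)) q I ϑ)) * F (x i))|

/-- left index type -/
abbrev TL (k Q r : ℕ) := Finset (Fin k) × Finset (Fin k) × Finset (Fin k) × Fin Q × Fin Q × Fin r

/-- right index type -/
abbrev TR (k Q L : ℕ) := Fin Q × Finset (Fin k) × (Finset (Fin k) → Fin L)

/-- validity of left indices -/
def valid {k Q r : ℕ} (β s : ℕ) (τ : TL k Q r) : Prop :=
  τ.1.card = s ∧ τ.2.1.card = β - s ∧ τ.2.2.1.card = β - s ∧ Disjoint τ.1 τ.2.1 ∧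
    Disjoint τ.1 τ.2.2.1 ∧ Disjoint τ.2.1 τ.2.2.1

/-- the partition -/
noncomputable def part {k Q r L : ℕ} : TL k Q r ⊕ TR k Q L → Fin k → Fin 3
  | Sum.inl τ, j => if j ∈ τ.2.1 then 1 else if j ∈ τ.2.2.1 then 2 else 0
  | Sum.inr τ, j => if j ∈ τ.2.1 then 0 else 1

/-- the quantities -/
noncomputable def DF {T D N Q r L k : ℕ} (β s : ℕ) (γ ε1 : ℝ) (x : Fin N → Pt T D)
    (f : Fin Q × Fin N → Fin Q × Fin N → Fin r) (lab : Fin Q → Finset (Fin T) → Fin N → Fin L) :
    TL k Q r ⊕ TR k Q L → (Fin k → Fin T) → ℝ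
  | Sum.inl τ, κ => if valid β s τ then
      boxavg x f lab κ τ.1 τ.2.1 τ.2.2.1 τ.2.2.2.1 τ.2.2.2.2.1 τ.2.2.2.2.2 / ε1 else 0
  | Sum.inr τ, κ => if τ.2.1.card = β ∧ bad β s γ x lab κ τ.1 τ.2.1 τ.2.2 then 1 else 0

/-- the bounds -/
noncomputable def RHO {Q r L k : ℕ} (M : ℕ) (η ε' ε1 γ : ℝ) : TL k Q r ⊕ TR k Q L → ℝ
  | Sum.inl _ => (ε' + 2 * (√(1 / M + 4 * η) + η)) / ε1
  | Sum.inr _ => 8 / (γ ^ 2 * M)

lemma sum_RHO {Q r L k : ℕ} (M : ℕ) (η ε' ε1 γ : ℝ) :
    ∑ τ : TL k Q r ⊕ TR k Q L, RHO M η ε' ε1 γ τ =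
    (2 : ℝ) ^ (3 * k) * Q ^ 2 * r * ((ε' + 2 * (√(1 / M + 4 * η) + η)) / ε1) +
    (Q : ℝ) * 2 ^ k * (L : ℝ) ^ (2 ^ k) * (8 / (γ ^ 2 * M)) := by
  rw [Fintype.sum_sum_type]
  simp only [RHO, Finset.sum_const, Finset.card_univ, nsmul_eq_mul]
  congr 2
  · simp only [Fintype.card_prod, Fintype.card_finset, Fintype.card_fin]
    push_cast
    ring
  · simp only [Fintype.card_prod, Fintype.card_finset, Fintype.card_fin, Fintype.card_fun]
    push_cast
    ring

theorem kappa (h1 : FrameStmt) (h2 : KYStmt) (h3 : KXStmt) : KappaStmt := by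
  intro β s k Q r L M T D N η ε' ε1 γ x f lab hsβ hβk hM hr hT hN hη0 hη1 hε' hε1 hγ hηγ hPR
    hcell hbox hsum
  have hM' : 0 < M := hM
  have hMr : (0 : ℝ) < M := by exact_mod_cast hM'
  have hrho0 : 0 ≤ (ε' + 2 * (√(1 / M + 4 * η) + η)) / ε1 := by
    have := Real.sqrt_nonneg (1 / (M : ℝ) + 4 * η)
    positivity
  obtain ⟨κ, hκ, hle⟩ := h1 k M T hM' hT (TL k Q r ⊕ TR k Q L) part (DF β s γ ε1 x f lab)
    (RHO M η ε' ε1 γ) (by
      rintro (τ | τ) κ
      · simp only [DF]
        split_ifs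
        · exact div_nonneg (boxavg_nonneg _ _ _ _ _ _ _ _ _ _) hε1.le
        · exact le_refl _
      · simp only [DF]
        split_ifs
        · exact zero_le_one
        · exact le_refl _) (by
      rintro (τ | τ) Φ hΦ
      · simp only [DF, RHO]
        by_cases hv : valid β s τ
        · simp only [if_pos hv]
          obtain ⟨hU, hJ, hJ', d1, d2, d3⟩ := id hv
          have key := h2 β s k Q r L M T D N hM' η ε' x f lab hsβ hβk hr hN hη0 hη1 hPR hcell hbox Φ
            hΦ (part (Sum.inl τ : TL k Q r ⊕ TR k Q L)) τ.1 τ.2.1 τ.2.2.1 τ.2.2.2.1 τ.2.2.2.2.1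
            τ.2.2.2.2.2 hU hJ hJ'
            (by
              intro j hj
              have e1 : j ∉ τ.2.1 := fun h => (Finset.disjoint_left.mp d1) hj h
              have e2 : j ∉ τ.2.2.1 := fun h => (Finset.disjoint_left.mp d2) hj h
              simp only [part, if_neg e1, if_neg e2])
            (by
              intro j hj
              simp only [part, if_pos hj])
            (by
              intro j hj
              have e1 : j ∉ τ.2.1 := fun h => (Finset.disjoint_left.mp d3) h hj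
              simp only [part, if_neg e1, if_pos hj])
          have e : ∀ l l' : Fin M, boxavg x f lab (fun j => Φ (part (Sum.inl τ : TL k Q r ⊕ TR k Q L) j)
              (if part (Sum.inl τ : TL k Q r ⊕ TR k Q L) j = 0 then ⟨0, hM'⟩ else
                if part (Sum.inl τ : TL k Q r ⊕ TR k Q L) j = 1 then l else l') j) τ.1 τ.2.1 τ.2.2.1 τ.2.2.2.1
              τ.2.2.2.2.1 τ.2.2.2.2.2 = avg univ (fun φ : Pt T D =>
      box4 (cell x ((τ.1 ∪ τ.2.1).image (frm hM' Φ (part (Sum.inl τ : TL k Q r ⊕ TR k Q L)) l l')) φ)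
        (cell x ((τ.1 ∪ τ.2.2.1).image (frm hM' Φ (part (Sum.inl τ : TL k Q r ⊕ TR k Q L)) l l')) φ)
        (Ferr x f lab (τ.1.image (frm hM' Φ (part (Sum.inl τ : TL k Q r ⊕ TR k Q L)) l l')) φ τ.2.2.2.1 τ.2.2.2.2.1 
          τ.2.2.2.2.2)) := fun _ _ => rfl
          simp only [e]
          rw [← mul_div_assoc, le_div_iff₀ hε1]
          calc _ = ∑ l : Fin M, ∑ l' : Fin M, avg univ (fun φ : Pt T D =>
      box4 (cell x ((τ.1 ∪ τ.2.1).image (frm hM' Φ (part (Sum.inl τ : TL k Q r ⊕ TR k Q L)) l l')) φ)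
        (cell x ((τ.1 ∪ τ.2.2.1).image (frm hM' Φ (part (Sum.inl τ : TL k Q r ⊕ TR k Q L)) l l')) φ)
        (Ferr x f lab (τ.1.image (frm hM' Φ (part (Sum.inl τ : TL k Q r ⊕ TR k Q L)) l l')) φ τ.2.2.2.1 τ.2.2.2.2.1 
          τ.2.2.2.2.2)) := by
                rw [Finset.sum_mul]
                refine Finset.sum_congr rfl fun l _ => ?_
                rw [Finset.sum_mul]
                refine Finset.sum_congr rfl fun l' _ => ?_
                exact div_mul_cancel₀ _ hε1.ne'
            _ ≤ _ := key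
        · simp only [if_neg hv, Finset.sum_const_zero]
          positivity
      · simp only [DF, RHO]
        by_cases hv : τ.2.1.card = β
        · rw [Finset.sum_comm]
          calc _ ≤ ∑ l' : Fin M, 8 / γ ^ 2 := by
                refine Finset.sum_le_sum fun l' _ => ?_
                have key := h3 β s k Q L M T D N hM' η γ x lab hβk hN hη0 hγ hηγ hPR Φ hΦ
                  (part (Sum.inr τ : TL k Q r ⊕ TR k Q L)) τ.2.1 τ.1 τ.2.2 l' hv
                  (by
                    intro j hj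
                    simp only [part, if_pos hj])
                  (by
                    intro j hj
                    simp only [part, if_neg hj])
                refine le_trans (le_of_eq ?_) key
                rw [Finset.sum_ite, Finset.sum_const_zero, add_zero, Finset.sum_const, nsmul_eq_mul,
                  mul_one]
                congr 2
                ext l
                simp only [Finset.mem_filter, Finset.mem_univ, true_and, hv]
                rfl
            _ = _ := by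
                rw [Finset.sum_const, Finset.card_univ, Fintype.card_fin, nsmul_eq_mul]
                field_simp
        · have e : ∀ κ : Fin k → Fin T, ¬ (τ.2.1.card = β ∧ bad β s γ x lab κ τ.1 τ.2.1 τ.2.2) :=
            fun κ h => hv h.1
          simp only [e, if_false, Finset.sum_const_zero]
          positivity)
  rw [sum_RHO] at hle
  have hlt : ∑ τ : TL k Q r ⊕ TR k Q L, DF β s γ ε1 x f lab τ κ < 1 := lt_of_le_of_lt hle hsum
  have hnn : ∀ τ : TL k Q r ⊕ TR k Q L, 0 ≤ DF β s γ ε1 x f lab τ κ := by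
    rintro (τ | τ)
    · simp only [DF]
      split_ifs
      · exact div_nonneg (boxavg_nonneg _ _ _ _ _ _ _ _ _ _) hε1.le
      · exact le_refl _
    · simp only [DF]
      split_ifs
      · exact zero_le_one
      · exact le_refl _
  have hall : ∀ τ : TL k Q r ⊕ TR k Q L, DF β s γ ε1 x f lab τ κ < 1 := fun τ =>
    lt_of_le_of_lt (Finset.single_le_sum (fun i _ => hnn i) (Finset.mem_univ τ)) hlt
  refine ⟨κ, hκ, ?_, ?_⟩
  · intro U J J' p q c hU hJ hJ' d1 d2 d3
    have h := hall (Sum.inl (U, J, J', p, q, c))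
    have hv : valid β s ((U, J, J', p, q, c) : TL k Q r) := ⟨hU, hJ, hJ', d1, d2, d3⟩
    simp only [DF, if_pos hv] at h
    rw [div_lt_one hε1] at h
    exact h.le
  · intro q I ϑ F hI hF
    by_contra hcon
    rw [not_le] at hcon
    have h := hall (Sum.inr (q, I, ϑ))
    have hb : ((q, I, ϑ) : TR k Q L).2.1.card = β ∧ bad β s γ x lab κ q I ϑ := ⟨hI, F, hF, hcon⟩
    simp only [DF] at h
    rw [if_pos hb] at h
    exact lt_irrefl _ h

end Pool.Agent.Helper10.PU
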